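import Pool.Agent.ESAs.Final

/-!
# An asymptotic description of the solutions of `f(n) = n / P(n)`

Write `n = P q k` where `P` is the largest prime factor of `n` and `q` the largest prime factor of
`n / P`. Up to a proportion `ε` of the number of solutions, a composite `n` satisfies
`f(n) = n / P(n)` if and only if `log q * log k ≤ log n`.
-/

namespace Pool.Agent.Results.MP_35d543_nt.AsymptoticRule

open Filter

theorem result (ε : ℝ) (hε : 0 < ε) : ∀ᶠ x : ℕ in atTop,
    ({n : ℕ | n ≤ x ∧ 1 < n ∧ ¬ n.Prime ∧ ¬ (ESGcd.IsSolution n ↔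
      Real.log (ESGcd.maxPrime (n / ESGcd.maxPrime n)) *
        Real.log ((n / ESGcd.maxPrime n / ESGcd.maxPrime (n / ESGcd.maxPrime n) : ℕ) : ℝ) ≤
          Real.log n)}.ncard : ℝ) ≤
      ε * ({n : ℕ | n ≤ x ∧ ESGcd.IsSolution n}.ncard : ℝ) :=
  ESAs.zFin ε hε

end Pool.Agent.Results.MP_35d543_nt.AsymptoticRule
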