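import Pool.Agent.ESGcd.Main
import Pool.Agent.ESGcd.Order

/-!
# The order of magnitude of the number of composite `n ≤ x` with `f(n) = n / P(n)`

`ESGcd.f n = min_{1 < k ≤ n/2} gcd (n, C(n,k))`, `ESGcd.maxPrime n` is the largest prime factor of
`n`, and `ESGcd.IsSolution n` says that `n` is composite and `f n = n / P(n)`.
-/

namespace Pool.Agent.Results.MP_35d543_nt.CountOrder

open Filter

/-- The number of composite `n ≤ x` with `f(n) = n / P(n)` has the exact order of magnitude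
`x / √(log x)`. -/
theorem result : ∃ c C : ℝ, 0 < c ∧ 0 < C ∧ ∀ᶠ x : ℕ in atTop,
    c * (x / √(Real.log x)) ≤ ({n | n ≤ x ∧ ESGcd.IsSolution n}.ncard : ℝ) ∧
    ({n | n ≤ x ∧ ESGcd.IsSolution n}.ncard : ℝ) ≤ C * (x / √(Real.log x)) := by
  obtain ⟨C, hC, h⟩ := ESGcd.count_upper
  refine ⟨1 / 320, C, by norm_num, hC, ?_⟩
  filter_upwards [h, ESGcd.count_lower] with x h1 h2
  refine ⟨le_trans (le_of_eq ?_) h2, h1⟩
  rw [mul_comm (320 : ℝ), ← div_div]
  ring

end Pool.Agent.Results.MP_35d543_nt.CountOrder
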