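import Pool.Agent.ESGcd.Count

/-!
# For each cofactor `m` almost every prime `P` gives `f(m P) = m P / P(m P)`

`ESGcd.f n = min_{1 < k ≤ n/2} gcd (n, C(n,k))`, `ESGcd.maxPrime n` is the largest prime factor of
`n`, and `ESGcd.IsSolution n` says that `n` is composite and `f n = n / P(n)`.
-/

namespace Pool.Agent.Results.MP_35d543_nt.FewExceptions

/-- For every `m ≥ 2` and `x ≥ 1`, all but at most `8 m⁵ x ^ (1 - 1 / (5 log (8 m²)))` of the
primes `P` with `m < P ≤ x` are such that `n = m P` satisfies `f(n) = n / P(n)`. -/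
theorem result (m x : ℕ) (hm : 2 ≤ m) (hx : 1 ≤ x) :
    ({P : ℕ | P ≤ x ∧ P.Prime ∧ m < P ∧ ¬ ESGcd.IsSolution (m * P)}.ncard : ℝ) ≤
      8 * (m : ℝ) ^ 5 * (x : ℝ) ^ (1 - 1 / (5 * Real.log (8 * (m : ℝ) ^ 2))) :=
  ESGcd.few_exceptions m x hm hx

end Pool.Agent.Results.MP_35d543_nt.FewExceptions
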