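import Pool.Agent.ESGcd.Main
import Pool.Agent.ESGcd.Loc

/-!
# Almost all composite `n` with `f(n) = n / P(n)` have a small `n / P(n)`

`ESGcd.f n = min_{1 < k ≤ n/2} gcd (n, C(n,k))`, `ESGcd.maxPrime n` is the largest prime factor of
`n`, and `ESGcd.IsSolution n` says that `n` is composite and `f n = n / P(n)`.
-/

namespace Pool.Agent.Results.MP_35d543_nt.SmallCofactor

open Filter

/-- For every `ε > 0` there is `K` such that, for large `x`, all but a proportion `ε` of the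
composite `n ≤ x` with `f(n) = n / P(n)` satisfy `n / P(n) ≤ exp (K √(log x))`. -/
theorem result (ε : ℝ) (hε : 0 < ε) : ∃ K : ℝ, 0 < K ∧ ∀ᶠ x : ℕ in atTop,
    ({n : ℕ | n ≤ x ∧ ESGcd.IsSolution n ∧
      Real.exp (K * √(Real.log x)) < (n : ℝ) / ESGcd.maxPrime n}.ncard : ℝ) ≤
      ε * ({n : ℕ | n ≤ x ∧ ESGcd.IsSolution n}.ncard : ℝ) := by
  obtain ⟨K, hK, h⟩ := ESGcd.few_large (ε / 320) (by positivity)
  refine ⟨K, hK, ?_⟩
  filter_upwards [h, ESGcd.count_lower] with x h1 h2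
  have e1 : {n : ℕ | n ≤ x ∧ ESGcd.IsSolution n ∧
      Real.exp (K * √(Real.log x)) < (n : ℝ) / ESGcd.maxPrime n} =
      {n : ℕ | n ≤ x ∧ ESGcd.IsSolution n ∧
      Real.exp (K * √(Real.log x)) < ((n / ESGcd.maxPrime n : ℕ) : ℝ)} := by
    ext n
    simp only [Set.mem_setOf_eq]
    constructor
    · rintro ⟨a, b, c⟩
      refine ⟨a, b, ?_⟩
      obtain ⟨hP, m, hm⟩ := ESGcd.maxPrime_spec (n := n) (by have := b.1; omega)
      have hP0 : (0 : ℝ) < ESGcd.maxPrime n := by exact_mod_cast hP.pos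
      rw [Nat.cast_div ⟨m, hm⟩ hP0.ne']
      exact c
    · rintro ⟨a, b, c⟩
      refine ⟨a, b, ?_⟩
      obtain ⟨hP, m, hm⟩ := ESGcd.maxPrime_spec (n := n) (by have := b.1; omega)
      have hP0 : (0 : ℝ) < ESGcd.maxPrime n := by exact_mod_cast hP.pos
      rw [Nat.cast_div ⟨m, hm⟩ hP0.ne'] at c
      exact c
  rw [e1]
  refine h1.trans ?_
  calc ε / 320 * (x / √(Real.log x)) = ε * (x / (320 * √(Real.log x))) := by
        rw [mul_comm (320 : ℝ), ← div_div]; ring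
    _ ≤ ε * ({n : ℕ | n ≤ x ∧ ESGcd.IsSolution n}.ncard : ℝ) :=
        mul_le_mul_of_nonneg_left h2 hε.le

end Pool.Agent.Results.MP_35d543_nt.SmallCofactor
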